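import Pool.Agent.H79.RD.Asm

/-!
# Strong exponential lower bounds for dag-like resolution of almost quadratic depth

For every `ε > 0` there are `K`, `n₀` such that for all `n ≥ n₀` and all clause widths `w` with
`K (log₂ n)² ≤ w ≤ n / K` there is an unsatisfiable CNF formula `F` in `n` variables with at most
`2 ^ (2 w)` clauses, all of width at most `w`, such that every dag-like resolution refutation of
`F` whose depth `D` is at most `n w / (K log₂ n)` has at least `2 ^ ((1 - ε) n)` lines.
-/

set_option autoImplicit false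

namespace Pool.Agent.Results.MP_c62aed_lc.DagResolutionSETH

open Pool.Agent.H79.RD

theorem result :
    ∀ ε : ℝ, 0 < ε → ∃ K n₀ : ℕ, ∀ n, n₀ ≤ n → ∀ w : ℕ,
      K * (Nat.log 2 n) ^ 2 ≤ w → K * w ≤ n →
      ∃ F : Finset (Clause (Fin n)),
        F.card ≤ 2 ^ (2 * w) ∧ (∀ C ∈ F, C.card ≤ w) ∧
        (∀ z : Fin n → Bool, ∃ C ∈ F, Falsified C z) ∧
        ∀ S D : ℕ, K * D * Nat.log 2 n ≤ n * w → Nonempty (Refutation F S D) →
          (2 : ℝ) ^ ((1 - ε) * n) ≤ S :=
  main

end Pool.Agent.Results.MP_c62aed_lc.DagResolutionSETH
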