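import Pool.Agent.H79.QF.All

/-!
# SETH for quantum computers which read the formula through monotone circuits

A quantum computer, with arbitrary unitary operations, asks superposed questions to the gates of a
monotone circuit at the input formula. If it asks `c log N` sequential questions, or asks in `T` rounds
`P` parallel questions with `(C T ^ 4 P) ^ T ≤ N ^ (1 - ε')`, and decides satisfiability, then the
circuit has at least `2 ^ ((1 - ε) n)` gates. On the other hand `log₂ (N + 1) + 1` classical questions
to monotone circuits of polynomial size are enough for all functions which have circuits of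
polynomial size.
-/

set_option autoImplicit false

open Finset Pool.Agent.H1.Mono Pool.Agent.H79.QF

namespace Pool.Agent.H79.Kept.MonotoneQueries

/-- Let `B = min (log₂ (2 |M| n)) (√n)` and `0 < D ≤ B`, where `M` is a nonempty set of clauses.

1. Let `C` be a monotone circuit with `s` gates (AND, OR, arbitrary fan-in), whose inputs are the
   entries of the `m × 2n` incidence matrix of a CNF formula `F`. For every `F` let `Q F` be a quantum
   algorithm (`GQ`) with `T` rounds; in one round a basis state asks for the values of at most `P`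
   gates of `C` at the input `F`, between the rounds there are arbitrary unitary operations. It may
   depend on all entries of the clauses outside `M`. Suppose that it decides the satisfiability of all
   formulas `F` with narrow clauses with error at most `ε < 1 / 2`. If `P = 1` and
   `24 T ≤ (1 - 2 √(ε (1 - ε))) (B - D)`, or if `(2048 T⁴ P / (1 - 2 ε)²) ^ T ≤ 2 ^ (B - D)`, then
   `2 ^ ((1 - 15 log₂ n / D) n) ≤ s`.
2. Every circuit with `s` AND, OR, NAND, NOR gates of arbitrary fan-in and `N` inputs is computed by a
   decision tree of depth at most `⌈log₂ (N + 1)⌉ + 1` which asks for the values of the gates of a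
   monotone circuit with at most `2 (N + 1) s + 2 (N + 2)³` gates. -/
theorem result :
    (∀ n m : ℕ, 2 ≤ n → ∀ M : Finset (Fin m), M.Nonempty → ∀ D ε : ℝ, 0 < D →
      D ≤ min (Real.logb 2 (2 * M.card * n)) (Real.sqrt n) → 0 ≤ ε → ε < 1 / 2 →
      ∀ (s : ℕ) (C : MonCircuit (Fin m × (Fin n × Bool)) s) (Q : Formula n m → GQ s) (T P : ℕ),
        (∀ F F' : Formula n m, (∀ j ∉ M, ∀ l, F (j, l) = F' (j, l)) → Q F = Q F') →
        (∀ F : Formula n m, (Q F).T = T ∧ (Q F).Par P ∧ (Narrow (Nat.log 2 M.card) F →
          (Satisfiable F → 1 - ε ≤ (Q F).prob (C.Val F)) ∧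
          (¬ Satisfiable F → (Q F).prob (C.Val F) ≤ ε))) →
        (P = 1 ∧ 24 * (T : ℝ) ≤ (1 - 2 * Real.sqrt (ε * (1 - ε))) *
            (min (Real.logb 2 (2 * M.card * n)) (Real.sqrt n) - D)) ∨
          (2048 * (T : ℝ) ^ 4 * P / (1 - 2 * ε) ^ 2) ^ T ≤
            2 ^ (min (Real.logb 2 (2 * M.card * n)) (Real.sqrt n) - D) →
        (2 : ℝ) ^ ((1 - 15 * Real.logb 2 n / D) * n) ≤ s) ∧
    ∀ (N s : ℕ) (C : Circuit (Fin N) s),
      ∃ (s' : ℕ) (C' : MonCircuit (Fin N) s') (t : GT s'),
        s' ≤ 2 * (N + 1) * s + 2 * (N + 2) ^ 3 ∧ t.depth ≤ Nat.clog 2 (N + 1) + 1 ∧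
        ∀ A, t.eval (C'.Val A) = true ↔ C.Accepts A :=
  ⟨fun n m hn M hM D ε hD hDB hε0 hε s C Q T P hQ hdec hTP =>
      lower all_ZO all_ADV all_PRL n m hn M hM D ε hD hDB hε0 hε s C Q T P hQ hdec hTP,
    fun N s C => sharp all_SLC all_TRE N s C⟩

end Pool.Agent.H79.Kept.MonotoneQueries
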