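import Pool.Agent.H80.SH.Fin
import Pool.Agent.H80.SH.FRM
import Pool.Agent.H13.SH.PRS
import Pool.Agent.H14.SH.BLD
import Pool.Agent.H14.SH.GOO
import Pool.Agent.H19.SH.ART
import Pool.Agent.H19.SH.FAR
import Pool.Agent.H19.SH.PHS
import Pool.Agent.H19.SH.SUM
import Pool.Agent.H33.SH.BAD
import Pool.Agent.H33.SH.BAL
import Pool.Agent.H42.SH.LOW
import Pool.Agent.H50.SH.UNB
import Pool.Agent.H59.SH.STP
import Pool.Agent.H71.SH.PSC
import Pool.Agent.H74.SH.CHO
import Pool.Agent.H74.SH.CLO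
import Pool.Agent.H74.SH.MOM
import Pool.Agent.H84.SH.WLK
import Pool.Agent.H86.SH.TUP

/-!
# SETH for shallow dag-like proofs (MP_c62aed_lc)

Dag-like semantic refutations of depth `(1 + o(1)) n` of CNF formulas with `n` variables need
`2 ^ ((1 - ε) n)` lines, whatever the lines are, as long as they come from a family of
`2 ^ 2 ^ s` sets.
-/

namespace Pool.Agent.H79.Kept.ShallowProofsSETH

open Pool.Agent.H80.SH

/-- For every `ε > 0` there are `K` and `n₀` such that for all `n ≥ n₀`, all `s` with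
`log₂ n ≤ s ≤ n / K` and every family `L` of at most `2 ^ 2 ^ s` subsets of the cube there is a
CNF formula with `n` variables and `m ≤ 2 ^ (K s)` clauses, all with exactly `w ≤ K s` variables,
in which every assignment violates at least `(1 - ε) m / 2 ^ w` clauses, such that every
dag-like semantic refutation with lines in `L`, of depth `D`, with at most `2 ^ k` premises
(`1 ≤ k ≤ s`, `k D ≥ n`) and at most `2 ^ s` clauses of the formula per line has at least
`2 ^ ((1 - ε) n ^ 2 / (2 k D - n) - 2)` lines. -/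
theorem result :
    ∀ ε : ℝ, 0 < ε → ∃ K n₀ : ℕ, ∀ n s : ℕ, n₀ ≤ n → n ≤ 2 ^ s → K * s ≤ n →
      ∀ L : Finset (Finset (Fin n → Bool)), L.card ≤ 2 ^ 2 ^ s →
        ∃ (w m : ℕ) (F : Fin m → Clause n), 1 ≤ m ∧ m ≤ 2 ^ (K * s) ∧ w ≤ K * s ∧
          (∀ i, (F i).card = w ∧ ((F i).image Prod.fst).card = w) ∧
          (∀ x, (1 - ε) * (m / 2 ^ w) ≤
            ((Finset.univ.filter (fun i => x ∈ (F i).Viol)).card : ℝ)) ∧
          ∀ S D k : ℕ, 1 ≤ k → k ≤ s → n ≤ k * D →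
            Nonempty (Refutation F L S D (2 ^ k) (2 ^ s)) →
            (2 : ℝ) ^ ((1 - ε) * (n : ℝ) ^ 2 / (2 * k * D - n) - 2) ≤ S := by
  have hGOO : T_GOO := Pool.Agent.H14.SH.goo Pool.Agent.H14.SH.bld Pool.Agent.H86.SH.tup
    Pool.Agent.H33.SH.bad
  have hWLK : T_WLK := Pool.Agent.H84.SH.wlk Pool.Agent.H71.SH.psc Pool.Agent.H59.SH.stp
    Pool.Agent.H50.SH.unb
  have hSUM : T_SUM := Pool.Agent.H19.SH.sum (Pool.Agent.H19.SH.phs hWLK)
  have hLOW : T_LOW := Pool.Agent.H42.SH.low Pool.Agent.H74.SH.clo hSUM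
  have hMOM : T_MOM := Pool.Agent.H74.SH.mom Pool.Agent.H74.SH.cho Pool.Agent.H13.SH.pf_PRS
  exact fin hGOO Pool.Agent.H71.SH.psc hLOW Pool.Agent.H13.SH.pf_PRS hMOM Pool.Agent.H33.SH.bal
    Pool.Agent.H19.SH.far Pool.Agent.H19.SH.art frm

end Pool.Agent.H79.Kept.ShallowProofsSETH
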